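import Pool.Agent.H8.AV3.Stmts3

/-!
# FIB: the fibres
-/

set_option autoImplicit false

namespace Pool.Agent.H47.AV3B

open Polynomial Matrix Pool.AVR Pool.AV3

theorem FIB_scale {K : Type} [Field K] {I : Set K} {π : K} (hI : Dv I π)
    {g g' : Matrix (Fin 3) (Fin 3) K} {v v' : Fin 3 → K} {l l' : K}
    (hl : AVS.UI I l) (hl' : AVS.UI I l') (h : Eq3 I π g (l • v) g' (l' • v')) :
    Eq3 I π g v g' v' := by
  obtain ⟨V, hV⟩ := hI.val
  have hm : ∀ x y : K, x ∈ I → y ∈ I → x * y ∈ I := by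
    intro x y hx hy
    rw [← hV] at hx hy ⊢
    exact V.mul_mem _ _ hx hy
  obtain ⟨κ, r, hκ, hr, hg, t, ht, hz⟩ := h
  refine ⟨κ, r, hκ, hr, hg, t * l * l'⁻¹, ⟨?_, ?_, ?_⟩, ?_⟩
  · exact mul_ne_zero (mul_ne_zero ht.1 hl.1) (inv_ne_zero hl'.1)
  · exact hm _ _ (hm _ _ ht.2.1 hl.2.1) hl'.2.2
  · rw [mul_inv, mul_inv, inv_inv]
    exact hm _ _ (hm _ _ ht.2.2 hl.2.2) hl'.2.1
  · intro i
    have h1 := hm _ _ hl'.2.2 (hz i)
    have h2 : l'⁻¹ * (((κ *ᵥ (l' • v')) i - t * (l • v) i) / π) =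
        ((κ *ᵥ v') i - t * l * l'⁻¹ * v i) / π := by
      have hl0 := hl'.1
      rw [Matrix.mulVec_smul, Pi.smul_apply, Pi.smul_apply, smul_eq_mul, smul_eq_mul]
      field_simp
    rwa [h2] at h1

theorem FIB_poly {F : Type} [Field F] {P : F[X]} (hP : Irreducible P) (p : F[X]) :
    algebraMap F[X] (RatFunc F) p ∈ AVS.IP P := by
  show ¬ P ∣ _
  intro h
  rw [RatFunc.denom_algebraMap] at h
  exact hP.not_isUnit (isUnit_of_dvd_one h)

theorem FIB_unitP {F : Type} [Field F] {P : F[X]} (hP : Irreducible P) {l : F[X]} (hl : ¬ P ∣ l) :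
    AVS.UI (AVS.IP P) (algebraMap F[X] (RatFunc F) l) := by
  have hl0 : l ≠ 0 := by
    rintro rfl
    exact hl (dvd_zero _)
  have hx : algebraMap F[X] (RatFunc F) l ≠ 0 := by simpa using hl0
  refine ⟨hx, FIB_poly hP l, ?_⟩
  show ¬ P ∣ _
  intro h
  have h1 := h.trans (RatFunc.denom_inv_dvd hx)
  rw [RatFunc.num_algebraMap] at h1
  exact hl h1

theorem FIB_dvd {F : Type} [Field F] {P : F[X]} (hP : Irreducible P) {m : F[X]}
    (h : algebraMap F[X] (RatFunc F) m / algebraMap F[X] (RatFunc F) P ∈ AVS.IP P) : P ∣ m := by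
  have hP0 : algebraMap F[X] (RatFunc F) P ≠ 0 := by
    simpa using hP.ne_zero
  set y := algebraMap F[X] (RatFunc F) m / algebraMap F[X] (RatFunc F) P with hy
  have hyd : algebraMap F[X] (RatFunc F) y.denom ≠ 0 := by
    simpa using y.denom_ne_zero
  have hy1 : y = algebraMap F[X] (RatFunc F) y.num / algebraMap F[X] (RatFunc F) y.denom :=
    (RatFunc.num_div_denom y).symm
  have hxy : algebraMap F[X] (RatFunc F) m = y * algebraMap F[X] (RatFunc F) P := by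
    rw [hy]; field_simp
  have e1 : algebraMap F[X] (RatFunc F) (m * y.denom) =
      algebraMap F[X] (RatFunc F) (P * y.num) := by
    rw [map_mul, map_mul, hxy]
    have h3 : algebraMap F[X] (RatFunc F) y.num = y * algebraMap F[X] (RatFunc F) y.denom := by
      rw [← div_eq_iff hyd]
      exact RatFunc.num_div_denom y
    rw [h3]
    ring
  have e4 := RatFunc.algebraMap_injective F e1
  have h5 : P ∣ m * y.denom := ⟨_, e4⟩
  exact (hP.prime.dvd_or_dvd h5).resolve_right h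

theorem FIB_C {F : Type} [Field F] (a : F) :
    algebraMap F[X] (RatFunc F) (C a) = RatFunc.C a := by
  rw [RatFunc.algebraMap_C]

theorem FIB_unitI {F : Type} [Field F] {l : F} (hl : l ≠ 0) :
    AVS.UI (AVS.Iinf F) (algebraMap F[X] (RatFunc F) (C l)) := by
  refine ⟨?_, ?_, ?_⟩
  · simpa using hl
  · show RatFunc.intDegree _ ≤ 0
    rw [FIB_C, RatFunc.intDegree_C]
  · show RatFunc.intDegree _ ≤ 0
    rw [FIB_C, ← map_inv₀, RatFunc.intDegree_C]

theorem FIB_zero {F : Type} [Field F] {m : F}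
    (h : algebraMap F[X] (RatFunc F) (C m) / (RatFunc.X)⁻¹ ∈ AVS.Iinf F) : m = 0 := by
  by_contra hm
  have h1 : RatFunc.intDegree (algebraMap F[X] (RatFunc F) (C m) / (RatFunc.X)⁻¹) ≤ 0 := h
  rw [div_inv_eq_mul, FIB_C, RatFunc.intDegree_mul (by simpa using hm) RatFunc.X_ne_zero,
    RatFunc.intDegree_C, RatFunc.intDegree_X] at h1
  norm_num at h1

theorem fib_thm (hMKQ : MKQStmt) (hMKR : MKRStmt) (hRDP : RDPStmt) (hRDI : RDIStmt)
    (hDVP : DVPStmt) : FIBStmt := by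
  intro F _ _ α β S gP gP' vP vP' gi gi' vi vi' l l' li li' g g' r z z' zi zi' hS hP hgi hgi'
    hli hli' hvi hvi2 hr hg hMk hMi hMi' hrd
  subst hg
  have hdI : Dv (AVS.Iinf F) (RatFunc.X)⁻¹ := hDVP.2.1 F
  have hgD : (r • g) * (Dg (dv α β))⁻¹ = r • (g * (Dg (dv α β))⁻¹) := by
    rw [Matrix.smul_mul]
  rw [hgD] at hMi'
  have hzi : ∀ i, (zi i - zi' i) / (RatFunc.X)⁻¹ ∈ AVS.Iinf F :=
    ((hRDI F).1 zi zi' hMi.1 hMi'.1).1 hrd
  have hzP : ∀ P ∈ S, ∀ i, (z P i - z' P i) / algebraMap F[X] (RatFunc F) P ∈ AVS.IP P := by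
    intro P hPS
    obtain ⟨h1, h2, h3⟩ := hMk P hPS
    exact ((hRDP F P (hS P hPS).1 (hS P hPS).2).1 (z P) (z' P) h1.1 h2.1).1 h3
  refine ⟨?_, ?_, ?_⟩
  · intro P hPS
    have hi := (hS P hPS).2
    obtain ⟨h1, h2, h3⟩ := hMk P hPS
    obtain ⟨k1, k2, k3, k4, k5, k6⟩ := hP P hPS
    have hE := hMKQ (RatFunc F) (AVS.IP P) (algebraMap F[X] (RatFunc F) P) (hDVP.1 F P hi)
      (gP P) (gP' P) g _ _ (z P) (z' P) r k1 k2 hr h1 h2 (hzP P hPS)
    exact FIB_scale (hDVP.1 F P hi) (FIB_unitP hi k3) (FIB_unitP hi k4) hE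
  · have hE := hMKQ (RatFunc F) (AVS.Iinf F) (RatFunc.X)⁻¹ hdI gi gi' _ _ _ zi zi' r hgi hgi' hr
      hMi hMi' hzi
    exact FIB_scale hdI (FIB_unitI hli) (FIB_unitI hli') hE
  · intro r₀ hr0 e1 e2 e3 e4
    subst e1 e2 e3 e4
    have hr00 : r₀ ≠ 0 := by
      rintro rfl
      apply hr
      rw [hr0]
      simp
    refine ⟨?_, ?_⟩
    · intro P hPS
      have hi := (hS P hPS).2
      obtain ⟨h1, h2, h3⟩ := hMk P hPS
      obtain ⟨k1, k2, k3, k4, k5, k6⟩ := hP P hPS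
      have hu : AVS.UI (AVS.IP P) r := by
        rw [hr0]
        refine FIB_unitP hi ?_
        intro hd
        have hu : IsUnit (C r₀ : F[X]) := Polynomial.isUnit_C.2 (isUnit_iff_ne_zero.2 hr00)
        exact hi.not_isUnit (isUnit_of_dvd_unit hd hu)
      have hE := hMKR (RatFunc F) (AVS.IP P) (algebraMap F[X] (RatFunc F) P) (hDVP.1 F P hi)
        (gP P) g (vP P) (z P) (z' P) r _ _ k1 hu (FIB_poly hi (l P)) (FIB_poly hi (l' P)) k5 k6
        h1 h2 (hzP P hPS)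
      rw [hr0, ← map_mul, ← map_sub] at hE
      exact FIB_dvd hi hE
    · have hu : AVS.UI (AVS.Iinf F) r := by
        rw [hr0]
        exact FIB_unitI hr00
      have hE := hMKR (RatFunc F) (AVS.Iinf F) (RatFunc.X)⁻¹ hdI gi _ vi zi zi' r _ _ hgi hu
        (FIB_unitI hli).2.1 (FIB_unitI hli').2.1 hvi hvi2 hMi hMi' hzi
      rw [hr0, ← map_mul, ← map_sub, ← C_mul, ← C_sub] at hE
      exact sub_eq_zero.1 (FIB_zero hE)

end Pool.Agent.H47.AV3B
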