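import Pool.Agent.H8.AV3.Stmts4

/-!
# MTS: the main term
-/

set_option autoImplicit false

namespace Pool.Agent.H47.AV3B

open Polynomial Matrix Pool.AVR Pool.AV3

theorem MTS_geo (u G : ℝ) (hu0 : 0 ≤ u) (hu1 : u < 1) (hG : u = G * (1 - u)) (n : ℕ) :
    ∑ i ∈ Finset.range n, u ^ (i + 1) ≤ G := by
  have h1 : ∑ i ∈ Finset.range n, u ^ (i + 1) = u * ∑ i ∈ Finset.range n, u ^ i := by
    rw [Finset.mul_sum]
    exact Finset.sum_congr rfl fun i _ => by ring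
  have h2 : (∑ i ∈ Finset.range n, u ^ i) * (1 - u) = 1 - u ^ n := by
    have := geom_sum_mul u n
    linarith
  have h3 : 0 ≤ u ^ n := pow_nonneg hu0 n
  have h4 : 0 < 1 - u := by linarith
  have h5 : (∑ i ∈ Finset.range n, u ^ (i + 1)) * (1 - u) ≤ G * (1 - u) := by
    rw [h1, mul_assoc, h2, ← hG]
    nlinarith
  exact le_of_mul_le_mul_right h5 h4

theorem mts_thm (hGRC : GRCStmt) : MTSStmt := by
  intro F _ _ h2 n
  obtain ⟨hfin, h00, h01, h10, h11⟩ := hGRC F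
  have hq1 : 1 < Nat.card F := Finite.one_lt_card
  set q : ℝ := (Nat.card F : ℝ) with hq
  have hq1' : (1 : ℝ) < q := by rw [hq]; exact_mod_cast hq1
  have hq0 : (0 : ℝ) < q := by linarith
  have hqa : (0 : ℝ) < q - 1 := by linarith
  have hqb : (0 : ℝ) < q ^ 2 - 1 := by nlinarith
  have hqc : (0 : ℝ) < q ^ 3 - 1 := by nlinarith [mul_pos hqa hqb]
  -- casts
  have hn1 : 1 ≤ Nat.card F := hq1.le
  have c1 : ((Nat.card F - 1 : ℕ) : ℝ) = q - 1 := by
    rw [Nat.cast_sub hn1]; simp [hq]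
  have c2 : ((Nat.card F ^ 2 - 1 : ℕ) : ℝ) = q ^ 2 - 1 := by
    rw [Nat.cast_sub (Nat.one_le_pow _ _ hn1)]; simp [hq]
  have c3 : ((Nat.card F ^ 2 - Nat.card F : ℕ) : ℝ) = q ^ 2 - q := by
    rw [Nat.cast_sub (by nlinarith)]; simp [hq]
  have c4 : ((Nat.card F ^ 3 - 1 : ℕ) : ℝ) = q ^ 3 - 1 := by
    rw [Nat.cast_sub (Nat.one_le_pow _ _ hn1)]; simp [hq]
  have c5 : ((Nat.card F ^ 3 - Nat.card F : ℕ) : ℝ) = q ^ 3 - q := by
    rw [Nat.cast_sub (by nlinarith [Nat.one_le_pow 2 _ hn1])]; simp [hq]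
  have c6 : ((Nat.card F ^ 3 - Nat.card F ^ 2 : ℕ) : ℝ) = q ^ 3 - q ^ 2 := by
    rw [Nat.cast_sub (Nat.pow_le_pow_right hn1 (by norm_num))]; simp [hq]
  set g : ℕ → ℕ → ℝ := fun α β =>
    1 / ((G3 (dv α β) : Set (Matrix (Fin 3) (Fin 3) F[X])).ncard : ℝ) with hg
  set u : ℝ := 1 / q ^ 2 with hu
  set G : ℝ := 1 / (q ^ 2 - 1) with hG
  have hu0 : 0 < u := by positivity
  have hu1 : u < 1 := by
    rw [hu, div_lt_one (by positivity)]; nlinarith
  have hGu : u = G * (1 - u) := by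
    rw [hu, hG]; field_simp
  have hG0 : 0 < G := by rw [hG]; exact one_div_pos.2 hqb
  have geo := MTS_geo u G hu0.le hu1 hGu n
  have key : ∀ {a b : ℝ}, 0 < a → a ≤ b → 1 / b ≤ 1 / a := fun ha hab =>
    one_div_le_one_div_of_le ha hab
  have e0 : g 0 0 ≤ 1 / ((q ^ 3 - 1) * (q ^ 3 - q) * (q ^ 3 - q ^ 2)) := by
    refine key ?_ ?_
    · have a1 : q ^ 3 - q = q * (q ^ 2 - 1) := by ring
      have a2 : q ^ 3 - q ^ 2 = q ^ 2 * (q - 1) := by ring
      rw [a1, a2]; positivity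
    · have := h00
      have h' : (((Nat.card F ^ 3 - 1) * (Nat.card F ^ 3 - Nat.card F) *
        (Nat.card F ^ 3 - Nat.card F ^ 2) : ℕ) : ℝ) ≤
        ((G3 (dv 0 0) : Set (Matrix (Fin 3) (Fin 3) F[X])).ncard : ℝ) := by exact_mod_cast this
      rw [Nat.cast_mul, Nat.cast_mul, c4, c5, c6] at h'
      exact h'
  have e1 : ∀ i, g 0 (i + 1) ≤ 1 / ((q ^ 2 - 1) * (q ^ 2 - q) * (q - 1) * q ^ 2) * u ^ (i + 1) := by
    intro i
    have h' : (((Nat.card F ^ 2 - 1) * (Nat.card F ^ 2 - Nat.card F) *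
      ((Nat.card F - 1) * Nat.card F ^ (2 * (i + 1) + 2)) : ℕ) : ℝ) ≤
        ((G3 (dv 0 (i + 1)) : Set (Matrix (Fin 3) (Fin 3) F[X])).ncard : ℝ) := by
      exact_mod_cast h01 (i + 1) (by omega)
    rw [Nat.cast_mul, Nat.cast_mul, Nat.cast_mul, c1, c2, c3, Nat.cast_pow, ← hq] at h'
    have a1 : q ^ 2 - q = q * (q - 1) := by ring
    refine (key ?_ h').trans (le_of_eq ?_)
    · rw [a1]; positivity
    · rw [hu, a1, _root_.one_div_pow, ← pow_mul, pow_add]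
      field_simp
  have e2 : ∀ i, g (i + 1) 0 ≤ 1 / ((q ^ 2 - 1) * (q ^ 2 - q) * (q - 1) * q ^ 2) * u ^ (i + 1) := by
    intro i
    have h' : (((Nat.card F ^ 2 - 1) * (Nat.card F ^ 2 - Nat.card F) *
      ((Nat.card F - 1) * Nat.card F ^ (2 * (i + 1) + 2)) : ℕ) : ℝ) ≤
        ((G3 (dv (i + 1) 0) : Set (Matrix (Fin 3) (Fin 3) F[X])).ncard : ℝ) := by
      exact_mod_cast h10 (i + 1) (by omega)
    rw [Nat.cast_mul, Nat.cast_mul, Nat.cast_mul, c1, c2, c3, Nat.cast_pow, ← hq] at h'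
    have a1 : q ^ 2 - q = q * (q - 1) := by ring
    refine (key ?_ h').trans (le_of_eq ?_)
    · rw [a1]; positivity
    · rw [hu, a1, _root_.one_div_pow, ← pow_mul, pow_add]
      field_simp
  have e3 : ∀ i j, g (i + 1) (j + 1) ≤ 1 / ((q - 1) ^ 3 * q ^ 3) * u ^ (i + 1) * u ^ (j + 1) := by
    intro i j
    have h' : (((Nat.card F - 1) ^ 3 * Nat.card F ^ (2 * (i + 1) + 2 * (j + 1) + 3) : ℕ) : ℝ) ≤
        ((G3 (dv (i + 1) (j + 1)) : Set (Matrix (Fin 3) (Fin 3) F[X])).ncard : ℝ) := by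
      exact_mod_cast h11 (i + 1) (j + 1) (by omega) (by omega)
    rw [Nat.cast_mul, Nat.cast_pow, c1, Nat.cast_pow, ← hq] at h'
    refine (key (by positivity) h').trans (le_of_eq ?_)
    rw [hu, _root_.one_div_pow, _root_.one_div_pow, ← pow_mul, ← pow_mul, pow_add, pow_add]
    field_simp
  have hsum : ∑ α ∈ Finset.range (n + 1), ∑ β ∈ Finset.range (n + 1), g α β ≤
      1 / ((q ^ 3 - 1) * (q ^ 3 - q) * (q ^ 3 - q ^ 2)) +
      2 * (1 / ((q ^ 2 - 1) * (q ^ 2 - q) * (q - 1) * q ^ 2) * G) +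
      1 / ((q - 1) ^ 3 * q ^ 3) * G * G := by
    have s0 : ∑ α ∈ Finset.range (n + 1), ∑ β ∈ Finset.range (n + 1), g α β =
        (∑ i ∈ Finset.range n, ∑ j ∈ Finset.range n, g (i + 1) (j + 1) +
          ∑ i ∈ Finset.range n, g (i + 1) 0) + (∑ j ∈ Finset.range n, g 0 (j + 1) + g 0 0) := by
      rw [Finset.sum_range_succ', Finset.sum_range_succ', ← Finset.sum_add_distrib]
      congr 1
      exact Finset.sum_congr rfl fun i _ => Finset.sum_range_succ' _ _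
    have b0 : (0 : ℝ) ≤ 1 / ((q ^ 2 - 1) * (q ^ 2 - q) * (q - 1) * q ^ 2) := by
      have a1 : q ^ 2 - q = q * (q - 1) := by ring
      rw [a1]; positivity
    have b1 : (0 : ℝ) ≤ 1 / ((q - 1) ^ 3 * q ^ 3) := by positivity
    have s1 : ∑ j ∈ Finset.range n, g 0 (j + 1) ≤
        1 / ((q ^ 2 - 1) * (q ^ 2 - q) * (q - 1) * q ^ 2) * G := by
      refine (Finset.sum_le_sum fun i _ => e1 i).trans ?_
      rw [← Finset.mul_sum]
      exact mul_le_mul_of_nonneg_left geo b0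
    have s2 : ∑ j ∈ Finset.range n, g (j + 1) 0 ≤
        1 / ((q ^ 2 - 1) * (q ^ 2 - q) * (q - 1) * q ^ 2) * G := by
      refine (Finset.sum_le_sum fun i _ => e2 i).trans ?_
      rw [← Finset.mul_sum]
      exact mul_le_mul_of_nonneg_left geo b0
    have s3 : ∑ i ∈ Finset.range n, ∑ j ∈ Finset.range n, g (i + 1) (j + 1) ≤
        1 / ((q - 1) ^ 3 * q ^ 3) * G * G := by
      have t1 : ∀ i ∈ Finset.range n, ∑ j ∈ Finset.range n, g (i + 1) (j + 1) ≤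
          1 / ((q - 1) ^ 3 * q ^ 3) * u ^ (i + 1) * G := by
        intro i _
        refine (Finset.sum_le_sum fun j _ => e3 i j).trans ?_
        rw [← Finset.mul_sum]
        exact mul_le_mul_of_nonneg_left geo (by positivity)
      refine (Finset.sum_le_sum t1).trans ?_
      rw [← Finset.sum_mul, ← Finset.mul_sum]
      exact mul_le_mul_of_nonneg_right (mul_le_mul_of_nonneg_left geo b1) hG0.le
    rw [s0]
    linarith
  have hfinal : (q - 1) * (1 / ((q ^ 3 - 1) * (q ^ 3 - q) * (q ^ 3 - q ^ 2)) +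
      2 * (1 / ((q ^ 2 - 1) * (q ^ 2 - q) * (q - 1) * q ^ 2) * G) +
      1 / ((q - 1) ^ 3 * q ^ 3) * G * G) * q ^ 8 =
      3 / ((1 - 1 / q) * (1 - 1 / q ^ 2) * rhoF F 1) := by
    have hr : rhoF F 1 = (1 - 1 / q ^ 2) * (1 - 1 / q ^ 3) := by
      simp only [rhoF, ← hq]
    rw [hr, hG]
    have a1 : q ^ 2 - q = q * (q - 1) := by ring
    have a2 : q ^ 3 - q = q * (q ^ 2 - 1) := by ring
    have a3 : q ^ 3 - q ^ 2 = q ^ 2 * (q - 1) := by ring
    have a4 : 1 - 1 / q = (q - 1) / q := by field_simp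
    have a5 : 1 - 1 / q ^ 2 = (q ^ 2 - 1) / q ^ 2 := by field_simp
    have a6 : 1 - 1 / q ^ 3 = (q ^ 3 - 1) / q ^ 3 := by field_simp
    rw [a1, a2, a3, a4, a5, a6]
    have n1 := hqa.ne'
    have n2 := hqb.ne'
    have n3 := hqc.ne'
    field_simp
    ring
  have hpow : q ^ (12 * n + 11) = q ^ 8 * q ^ (12 * n + 3) := by
    rw [← pow_add]; congr 1; omega
  rw [hpow]
  have hp : 0 < q ^ (12 * n + 3) := by positivity
  calc (q - 1) * (∑ α ∈ Finset.range (n + 1), ∑ β ∈ Finset.range (n + 1), g α β) *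
        (q ^ 8 * q ^ (12 * n + 3))
      = ((q - 1) * (∑ α ∈ Finset.range (n + 1), ∑ β ∈ Finset.range (n + 1), g α β) * q ^ 8) *
        q ^ (12 * n + 3) := by ring
    _ ≤ 3 / ((1 - 1 / q) * (1 - 1 / q ^ 2) * rhoF F 1) * q ^ (12 * n + 3) := by
        refine mul_le_mul_of_nonneg_right ?_ hp.le
        rw [← hfinal]
        refine mul_le_mul_of_nonneg_right (mul_le_mul_of_nonneg_left hsum hqa.le) (by positivity)

end Pool.Agent.H47.AV3B
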